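import Pool.Agent.H27.HankC

/-! All Hankel determinants of the inverse Thue-Morse series lie in `{-1, 0, 1}`. -/

namespace Pool.Agent.Results.MP_ff738c_co.Full
open PowerSeries

/-- The Thue-Morse series over the field with two elements. -/
noncomputable def F : (ZMod 2)⟦X⟧ := PowerSeries.mk fun n => ((Nat.digits 2 n).sum : ZMod 2)

theorem F1 : IsUnit (coeff 1 F) := by simp [F]

/-- The coefficients of the compositional inverse of `F`, read as the integers `0` and `1`. -/
noncomputable def c (n : ℕ) : ℤ := (coeff n (F.substInvOfIsUnit F1)).val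

theorem result (p n : ℕ) : (Matrix.of fun i j : Fin n => c (p + i + j + 1)).det ∈ ({-1, 0, 1} : Set ℤ) :=
  Pool.Agent.H27.Hank.det_unit (constantCoeff_substInvOfIsUnit F F1)
    (subst_substInvOfIsUnit_right F (by simp [F]) F1) p n

end Pool.Agent.Results.MP_ff738c_co.Full
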